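import Pool.Agent.Helper21.BN.Defs

namespace BN
namespace H91

open Module

theorem rn {R M N : Type} [Field R] [AddCommGroup M] [Module R M] [AddCommGroup N] [Module R N]
    [FiniteDimensional R M] (p : Submodule R M) (f : M →ₗ[R] N) :
    finrank R (p.map f) + finrank R (p ⊓ LinearMap.ker f : Submodule R M) = finrank R p := by
  have h := (f.domRestrict p).finrank_range_add_finrank_ker
  rw [LinearMap.range_domRestrict] at h
  have h2 : LinearMap.ker (f.domRestrict p) = Submodule.comap p.subtype (LinearMap.ker f) := by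
    ext x; simp [LinearMap.domRestrict]
  rw [h2, ← Submodule.finrank_map_subtype_eq p, Submodule.map_comap_subtype] at h
  exact h

variable {V E : Type} [Fintype V] [DecidableEq V] [Fintype E] [DecidableEq E]

/-- boundary as a linear map -/
def bdL (d : E → V → ZMod 2) : (E → ZMod 2) →ₗ[ZMod 2] (V → ZMod 2) where
  toFun := bd d
  map_add' a b := by
    funext v
    simp only [bd, Pi.add_apply, add_mul, Finset.sum_add_distrib]
  map_smul' c a := by
    funext v
    simp only [bd, Pi.smul_apply, smul_eq_mul, mul_assoc, Finset.mul_sum, RingHom.id_apply]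

@[simp] theorem bdL_apply (d : E → V → ZMod 2) (z : E → ZMod 2) : bdL d z = bd d z := rfl

/-- vectors supported on `K` -/
def sup (K : Finset E) : Submodule (ZMod 2) (E → ZMod 2) where
  carrier := {y | ∀ e, e ∉ K → y e = 0}
  add_mem' := by
    intro a b ha hb e he
    simp [ha e he, hb e he]
  zero_mem' := fun _ _ => rfl
  smul_mem' := by
    intro c a ha e he
    simp [ha e he]

theorem mem_sup {K : Finset E} {y : E → ZMod 2} : y ∈ sup K ↔ ∀ e, e ∉ K → y e = 0 := Iff.rfl

/-- extension by zero -/
def ext0 (K : Finset E) : (K → ZMod 2) →ₗ[ZMod 2] (E → ZMod 2) where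
  toFun y := fun e => if h : e ∈ K then y ⟨e, h⟩ else 0
  map_add' a b := by
    funext e
    by_cases h : e ∈ K <;> simp [h]
  map_smul' c a := by
    funext e
    by_cases h : e ∈ K <;> simp [h]

theorem ext0_inj (K : Finset E) : Function.Injective (ext0 K) := by
  intro a b h
  funext e
  have := congrFun h e.1
  simpa [ext0, e.2] using this

theorem range_ext0 (K : Finset E) : LinearMap.range (ext0 K) = sup K := by
  ext y
  constructor
  · rintro ⟨a, rfl⟩ e he
    simp [ext0, he]
  · intro hy
    refine ⟨fun e => y e.1, ?_⟩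
    funext e
    by_cases h : e ∈ K
    · simp [ext0, h]
    · simp [ext0, h, hy e h]

theorem finrank_sup (K : Finset E) : finrank (ZMod 2) (sup K) = K.card := by
  rw [← range_ext0, LinearMap.finrank_range_of_inj (ext0_inj K)]
  simp

theorem cyc_eq (d : E → V → ZMod 2) (K : Finset E) : cyc d K = sup K ⊓ LinearMap.ker (bdL d) := by
  ext z
  simp only [Submodule.mem_inf, LinearMap.mem_ker, bdL_apply, mem_sup]
  constructor
  · rintro ⟨h1, h2⟩
    exact ⟨h1, funext h2⟩
  · rintro ⟨h1, h2⟩
    exact ⟨h1, fun v => congrFun h2 v⟩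

/-- rank of an edge set -/
noncomputable def rk (d : E → V → ZMod 2) (A : Finset E) : ℕ := finrank (ZMod 2) ((sup A).map (bdL d))

theorem rk_add (d : E → V → ZMod 2) (A : Finset E) :
    rk d A + finrank (ZMod 2) (cyc d A) = A.card := by
  rw [cyc_eq, ← finrank_sup A]
  exact rn _ _

theorem z2 (a : ZMod 2) (h : a ≠ 0) : a = 1 := by
  revert h; revert a; decide

theorem z2add (a b : ZMod 2) (h : a + b = 0) : a = b := by
  revert h; revert a b; decide

theorem z2self (a : ZMod 2) : a + a = 0 := by
  revert a; decide

theorem bd_single (d : E → V → ZMod 2) (e : E) : bd d (Pi.single e 1) = d e := by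
  funext v
  unfold bd
  rw [Finset.sum_eq_single e]
  · simp
  · intro b _ hb
    simp [Pi.single_apply, hb]
  · simp

end H91
end BN
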